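import Pool.Agent.H.MP_ee9c6f_al.Ends2
import Pool.Agent.H.MP_ee9c6f_al.E2.Ends

/-!
MP_ee9c6f_al (helper91). A finitely presented group with a subgroup of finite index that has a
nontrivial homomorphism to `ℤ` has a finitely generated subgroup with at least two relative ends.
-/

set_option autoImplicit false

namespace Pool.Agent.H.MP_ee9c6f_al.Wall

open Pointwise

/-! ### Height functions -/

section Height

variable {G : Type} [Group G] {M : Subgroup G}

/-- A height function for `χ`: it changes by `χ m` under right multiplication by `m`, and by a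
bounded amount under left multiplication by a fixed element. -/
theorem exists_height [M.FiniteIndex] (χ : M →* Multiplicative ℤ) :
    ∃ h : G → ℤ, (∀ (g : G) (m : M), h (g * m) = h g + Multiplicative.toAdd (χ m)) ∧
      ∀ s : G, ∃ b : ℕ, ∀ g : G, |h (s * g) - h g| ≤ b := by
  classical
  have hmem : ∀ g : G, ((QuotientGroup.mk g : G ⧸ M).out)⁻¹ * g ∈ M := by
    intro g
    rw [← QuotientGroup.eq]
    exact QuotientGroup.out_eq' _
  let h : G → ℤ := fun g => Multiplicative.toAdd (χ ⟨_, hmem g⟩)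
  have h1 : ∀ (g : G) (m : M), h (g * m) = h g + Multiplicative.toAdd (χ m) := by
    intro g m
    have e : (QuotientGroup.mk (g * m) : G ⧸ M) = QuotientGroup.mk g :=
      QuotientGroup.mk_mul_of_mem g m.2
    have e2 : (⟨_, hmem (g * m)⟩ : M) = ⟨_, hmem g⟩ * m := by
      apply Subtype.ext
      change ((QuotientGroup.mk (g * m) : G ⧸ M).out)⁻¹ * (g * m) = _ * g * m
      rw [e, mul_assoc]
    change Multiplicative.toAdd (χ ⟨_, hmem (g * m)⟩) = _
    rw [e2, map_mul]
    rfl
  refine ⟨h, h1, fun s => ?_⟩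
  -- the change of height depends only on the coset
  have h2 : ∀ g : G, h (s * g) - h g =
      h (s * (QuotientGroup.mk g : G ⧸ M).out) - h (QuotientGroup.mk g : G ⧸ M).out := by
    intro g
    have e : g = (QuotientGroup.mk g : G ⧸ M).out * (⟨_, hmem g⟩ : M) := by
      change g = _ * (_ * g)
      group
    conv_lhs => rw [e]
    rw [← mul_assoc, h1, h1]
    ring
  have hfin : Finite (G ⧸ M) := inferInstance
  have := Fintype.ofFinite (G ⧸ M)
  refine ⟨∑ q : G ⧸ M, (|h (s * q.out) - h q.out|).toNat, fun g => ?_⟩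
  rw [h2]
  have h3 := Finset.single_le_sum (f := fun q : G ⧸ M => (|h (s * q.out) - h q.out|).toNat)
    (fun _ _ => Nat.zero_le _) (Finset.mem_univ (QuotientGroup.mk g : G ⧸ M))
  have h4 : (0 : ℤ) ≤ |h (s * (QuotientGroup.mk g : G ⧸ M).out) -
    h (QuotientGroup.mk g : G ⧸ M).out| := abs_nonneg _
  have h5 := Int.toNat_of_nonneg h4
  rw [← h5]
  exact_mod_cast h3

end Height

/-! ### Slabs -/

section Slab

variable {G : Type} [Group G]

/-- one step of the left Cayley graph with respect to `S` -/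
def Step (S : Set G) (x y : G) : Prop := ∃ s ∈ S, y = s * x ∨ x = s * y

theorem Step.symm {S : Set G} {x y : G} (h : Step S x y) : Step S y x := by
  obtain ⟨s, hs, h | h⟩ := h
  · exact ⟨s, hs, Or.inr h⟩
  · exact ⟨s, hs, Or.inl h⟩

theorem Step.mul_right {S : Set G} {x y : G} (h : Step S x y) (m : G) :
    Step S (x * m) (y * m) := by
  obtain ⟨s, hs, h | h⟩ := h
  · exact ⟨s, hs, Or.inl (by rw [h, mul_assoc])⟩
  · exact ⟨s, hs, Or.inr (by rw [h, mul_assoc])⟩

variable (S : Set G) (h : G → ℤ) (D : ℤ)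

/-- one step inside the slab -/
def SStep (x y : G) : Prop := Step S x y ∧ |h x| ≤ D ∧ |h y| ≤ D

/-- `x` and `y` are connected in the slab -/
def Conn (x y : G) : Prop := Relation.ReflTransGen (SStep S h D) x y

/-- the component of `1` in the slab -/
def Comp (x : G) : Prop := Conn S h D 1 x

variable {S h D}

theorem SStep.symm {x y : G} (H : SStep S h D x y) : SStep S h D y x := ⟨H.1.symm, H.2.2, H.2.1⟩

theorem Conn.symm {x y : G} (H : Conn S h D x y) : Conn S h D y x := by
  induction H with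
  | refl => exact Relation.ReflTransGen.refl
  | tail _ h1 ih => exact Relation.ReflTransGen.head h1.symm ih

theorem Conn.trans {x y z : G} (H : Conn S h D x y) (H' : Conn S h D y z) : Conn S h D x z :=
  Relation.ReflTransGen.trans H H'

theorem Conn.mul_right {x y : G} (H : Conn S h D x y) {m : G} (hm : ∀ g, h (g * m) = h g) :
    Conn S h D (x * m) (y * m) := by
  induction H with
  | refl => exact Relation.ReflTransGen.refl
  | tail _ h1 ih =>
    exact Relation.ReflTransGen.tail ih ⟨h1.1.mul_right m, by rw [hm]; exact h1.2.1,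
      by rw [hm]; exact h1.2.2⟩

theorem Comp.abs_le (h1 : |h 1| ≤ D) {x : G} (H : Comp S h D x) : |h x| ≤ D := by
  unfold Comp Conn at H
  induction H with
  | refl => exact h1
  | tail _ h2 _ => exact h2.2.2

theorem Comp.step {x y : G} (H : Comp S h D x) (h1 : Step S x y) (h2 : |h x| ≤ D)
    (h3 : |h y| ≤ D) : Comp S h D y := Relation.ReflTransGen.tail H ⟨h1, h2, h3⟩

theorem Comp.mul_right {x m : G} (H : Comp S h D x) (Hm : Comp S h D m)
    (hm : ∀ g, h (g * m) = h g) : Comp S h D (x * m) := by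
  have h2 : Conn S h D (1 * m) (x * m) := Conn.mul_right H hm
  rw [one_mul] at h2
  exact Conn.trans Hm h2

theorem Comp.of_mul_right {x m : G} (H : Comp S h D x) (H' : Comp S h D (x * m))
    (hm : ∀ g, h (g * m) = h g) : Comp S h D m := by
  have h2 : Conn S h D (1 * m) (x * m) := Conn.mul_right H hm
  rw [one_mul] at h2
  exact Conn.trans H' h2.symm

end Slab

/-! ### The stabiliser of the component -/

section Stab

variable {G : Type} [Group G] {M : Subgroup G} (χ : M →* Multiplicative ℤ) {h : G → ℤ}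
  (hh : ∀ (g : G) (m : M), h (g * m) = h g + Multiplicative.toAdd (χ m)) (S : Set G) (D : ℤ)

include hh in
theorem height_inv {m : M} (hm : χ m = 1) (g : G) : h (g * m) = h g := by
  rw [hh, hm, toAdd_one, add_zero]

/-- the elements of the kernel of `χ` that lie in the component of `1` -/
def stab : Subgroup G where
  carrier := {x | ∃ hx : x ∈ M, χ ⟨x, hx⟩ = 1 ∧ Comp S h D x}
  mul_mem' := by
    rintro x y ⟨hx, hx1, hx2⟩ ⟨hy, hy1, hy2⟩
    refine ⟨M.mul_mem hx hy, ?_, hx2.mul_right hy2 (height_inv χ hh hy1)⟩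
    have : (⟨x * y, M.mul_mem hx hy⟩ : M) = ⟨x, hx⟩ * ⟨y, hy⟩ := rfl
    rw [this, map_mul, hx1, hy1, mul_one]
  one_mem' := by
    refine ⟨M.one_mem, ?_, Relation.ReflTransGen.refl⟩
    have : (⟨1, M.one_mem⟩ : M) = 1 := rfl
    rw [this, map_one]
  inv_mem' := by
    rintro x ⟨hx, hx1, hx2⟩
    have hinv : χ ⟨x⁻¹, M.inv_mem hx⟩ = 1 := by
      have : (⟨x⁻¹, M.inv_mem hx⟩ : M) = (⟨x, hx⟩ : M)⁻¹ := rfl
      rw [this, map_inv, hx1, inv_one]
    refine ⟨M.inv_mem hx, hinv, ?_⟩
    have h2 := Conn.mul_right hx2 (m := x⁻¹) (height_inv χ hh hinv)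
    rw [one_mul, mul_inv_cancel] at h2
    exact h2.symm

theorem mem_stab {x : G} :
    x ∈ stab χ hh S D ↔ ∃ hx : x ∈ M, χ ⟨x, hx⟩ = 1 ∧ Comp S h D x := Iff.rfl

theorem height_stab {m : G} (hm : m ∈ stab χ hh S D) (g : G) : h (g * m) = h g := by
  obtain ⟨hx, hx1, -⟩ := hm
  exact height_inv χ hh (m := ⟨m, hx⟩) hx1 g

theorem comp_stab {m : G} (hm : m ∈ stab χ hh S D) (g : G) :
    Comp S h D (g * m) ↔ Comp S h D g := by
  constructor
  · intro H
    have hm' := (stab χ hh S D).inv_mem hm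
    have := H.mul_right hm'.2.2 (height_stab χ hh S D hm')
    rwa [mul_inv_cancel_right] at this
  · intro H
    exact H.mul_right hm.2.2 (height_stab χ hh S D hm)

/-- Two elements of the component in the same coset of `M` and of the same height differ by an
element of the stabiliser. -/
theorem stab_of_eq {x y : G} (hx : Comp S h D x) (hy : Comp S h D y)
    (hM : (QuotientGroup.mk x : G ⧸ M) = QuotientGroup.mk y) (he : h x = h y) :
    x⁻¹ * y ∈ stab χ hh S D := by
  have hm : x⁻¹ * y ∈ M := QuotientGroup.eq.mp hM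
  have h1 := hh x ⟨x⁻¹ * y, hm⟩
  rw [show x * ((⟨x⁻¹ * y, hm⟩ : M) : G) = y from mul_inv_cancel_left x y, ← he] at h1
  have h2 : χ ⟨x⁻¹ * y, hm⟩ = 1 := by
    have : Multiplicative.toAdd (χ ⟨x⁻¹ * y, hm⟩) = 0 := by omega
    rw [← ofAdd_toAdd (χ ⟨x⁻¹ * y, hm⟩), this]
    rfl
  refine ⟨hm, h2, hx.of_mul_right ?_ (height_inv χ hh h2)⟩
  rwa [mul_inv_cancel_left]

/-- a finite set of representatives -/
theorem exists_reps [M.FiniteIndex] (h1 : |h 1| ≤ D) : ∃ B : Set G, B.Finite ∧
    (∀ b ∈ B, Comp S h D b) ∧ ∃ rep : G → G, ∀ x, Comp S h D x → rep x ∈ B ∧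
      (rep x)⁻¹ * x ∈ stab χ hh S D ∧
      ∀ y, Comp S h D y → x⁻¹ * y ∈ stab χ hh S D → rep x = rep y := by
  classical
  have hfinM : Finite (G ⧸ M) := inferInstance
  let v : G → (G ⧸ M) × ℤ := fun x => (QuotientGroup.mk x, h x)
  have hfin : (v '' {x | Comp S h D x}).Finite := by
    refine ((Set.toFinite (Set.univ : Set (G ⧸ M))).prod (Set.finite_Icc (-D) D)).subset ?_
    rintro _ ⟨x, hx, rfl⟩
    exact ⟨trivial, abs_le.mp (Comp.abs_le h1 hx)⟩
  let sec : (G ⧸ M) × ℤ → G := fun w =>
    if H : ∃ x, Comp S h D x ∧ v x = w then H.choose else 1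
  have hsec : ∀ x, Comp S h D x → Comp S h D (sec (v x)) ∧ v (sec (v x)) = v x := by
    intro x hx
    have H : ∃ y, Comp S h D y ∧ v y = v x := ⟨x, hx, rfl⟩
    have e : sec (v x) = H.choose := dif_pos H
    rw [e]
    exact H.choose_spec
  refine ⟨sec '' (v '' {x | Comp S h D x}), hfin.image _, ?_, fun x => sec (v x), ?_⟩
  · rintro _ ⟨_, ⟨x, hx, rfl⟩, rfl⟩
    exact (hsec x hx).1
  · intro x hx
    refine ⟨⟨_, ⟨x, hx, rfl⟩, rfl⟩, ?_, ?_⟩
    · obtain ⟨h2, h3⟩ := hsec x hx
      have h4 := Prod.ext_iff.mp h3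
      exact stab_of_eq χ hh S D h2 hx h4.1 h4.2
    · intro y hy hxy
      have e : v x = v y := by
        refine Prod.ext ?_ ?_
        · exact QuotientGroup.eq.mpr hxy.1
        · change h x = h y
          have := height_stab χ hh S D hxy x
          rw [mul_inv_cancel_left] at this
          exact this.symm
      change sec (v x) = sec (v y)
      rw [e]

theorem stab_fg [M.FiniteIndex] (hS : S.Finite) (h1 : |h 1| ≤ D) : (stab χ hh S D).FG := by
  classical
  obtain ⟨B, hB, -, rep, hrep⟩ := exists_reps χ hh S D h1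
  -- the generators
  let T : Set G := ((B⁻¹ * S * B) ∪ (B⁻¹ * S⁻¹ * B)) ∩ stab χ hh S D
  have hT : T.Finite := by
    refine Set.Finite.inter_of_left ?_ _
    exact ((hB.inv.mul hS).mul hB).union ((hB.inv.mul hS.inv).mul hB)
  have hone : Comp S h D 1 := Relation.ReflTransGen.refl
  let T' : Set G := insert (rep 1) T
  have hT' : T'.Finite := hT.insert _
  have hr1 : rep 1 ∈ stab χ hh S D := by
    have := (stab χ hh S D).inv_mem (hrep 1 hone).2.1
    rwa [mul_one, inv_inv] at this
  have hle : Subgroup.closure T' ≤ stab χ hh S D := by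
    rw [Subgroup.closure_le]
    rintro x (rfl | hx)
    · exact hr1
    · exact hx.2
  have key : ∀ x, Comp S h D x → (rep x)⁻¹ * x ∈ Subgroup.closure T' := by
    intro x hx
    unfold Comp Conn at hx
    induction hx with
    | refl =>
      rw [mul_one]
      exact (Subgroup.closure T').inv_mem (Subgroup.subset_closure (Or.inl rfl))
    | @tail y z hy hyz ih =>
      have hCy : Comp S h D y := hy
      have hCz : Comp S h D z := hCy.step hyz.1 hyz.2.1 hyz.2.2
      have e : (rep z)⁻¹ * z = ((rep z)⁻¹ * (z * y⁻¹) * rep y) * ((rep y)⁻¹ * y) := by group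
      rw [e]
      refine (Subgroup.closure T').mul_mem (Subgroup.subset_closure (Or.inr ⟨?_, ?_⟩)) ih
      · obtain ⟨s, hs, rfl | rfl⟩ := hyz.1
        · left
          rw [mul_inv_cancel_right]
          exact Set.mul_mem_mul (Set.mul_mem_mul (Set.inv_mem_inv.mpr (hrep _ hCz).1) hs)
            (hrep _ hCy).1
        · right
          have e2 : z * (s * z)⁻¹ = s⁻¹ := by group
          rw [e2]
          exact Set.mul_mem_mul (Set.mul_mem_mul (Set.inv_mem_inv.mpr (hrep _ hCz).1)
            (Set.inv_mem_inv.mpr hs)) (hrep _ hCy).1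
      · have e3 : (rep z)⁻¹ * (z * y⁻¹) * rep y = ((rep z)⁻¹ * z) * ((rep y)⁻¹ * y)⁻¹ := by group
        rw [e3]
        exact (stab χ hh S D).mul_mem (hrep _ hCz).2.1
          ((stab χ hh S D).inv_mem (hrep _ hCy).2.1)
  have heq : Subgroup.closure T' = stab χ hh S D := by
    refine le_antisymm hle fun m hm => ?_
    have h2 := key m hm.2.2
    have h3 : rep 1 = rep m := (hrep 1 hone).2.2 m hm.2.2 (by rwa [inv_one, one_mul])
    have h4 : m = rep 1 * ((rep m)⁻¹ * m) := by rw [h3]; group
    rw [h4]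
    exact (Subgroup.closure T').mul_mem (Subgroup.subset_closure (Or.inl rfl)) h2
  exact ⟨hT'.toFinset, by rw [Set.Finite.coe_toFinset]; exact heq⟩

/-- The component is a finite union of cosets of the stabiliser. -/
theorem comp_finite [M.FiniteIndex] (h1 : |h 1| ≤ D) :
    ((QuotientGroup.mk : G → G ⧸ stab χ hh S D) '' {x | Comp S h D x}).Finite := by
  obtain ⟨B, hB, -, rep, hrep⟩ := exists_reps χ hh S D h1
  refine (hB.image QuotientGroup.mk).subset ?_
  rintro _ ⟨x, hx, rfl⟩
  exact ⟨rep x, (hrep x hx).1, QuotientGroup.eq.mpr (hrep x hx).2.1⟩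

end Stab

end Pool.Agent.H.MP_ee9c6f_al.Wall
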