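import Pool.Agent.H.MP_ee9c6f_al.helper91.Wall

/-!
MP_ee9c6f_al (helper91). A finitely presented group with a subgroup of finite index that has a
nontrivial homomorphism to `ℤ` has a finitely generated subgroup with at least two relative ends.
Second part: the number of passages through the top of the component of `1` in a slab.
-/

set_option autoImplicit false

namespace Pool.Agent.H.MP_ee9c6f_al.Wall

open Pointwise

section Count

variable {α : Type} {rels : Set (FreeGroup α)} (h : PresentedGroup rels → ℤ) (D : ℤ)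

/-- the generators -/
def gens (rels : Set (FreeGroup α)) : Set (PresentedGroup rels) := Set.range PresentedGroup.of

/-- membership in the component as an integer -/
noncomputable def ci (x : PresentedGroup rels) : ℤ :=
  open Classical in if Comp (gens rels) h D x then 1 else 0

/-- the passage through the top of the component along the edge from `x` to `y` -/
noncomputable def E (x y : PresentedGroup rels) : ℤ :=
  open Classical in (if Comp (gens rels) h D x ∧ D < h y then 1 else 0) -
    if Comp (gens rels) h D y ∧ D < h x then 1 else 0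

theorem E_symm (x y : PresentedGroup rels) : E h D y x = -E h D x y := by
  unfold E
  ring

variable {h D}

theorem E_low (x y : PresentedGroup rels) (h1 : h x ≤ D) (h2 : h y ≤ D) : E h D x y = 0 := by
  unfold E
  rw [if_neg (fun H => absurd H.2 (not_lt.mpr h2)), if_neg (fun H => absurd H.2 (not_lt.mpr h1)),
    sub_zero]

theorem E_high (h0 : |h 1| ≤ D) {x y : PresentedGroup rels} (hxy : Step (gens rels) x y)
    (h1 : -D ≤ h x) (h2 : -D ≤ h y) : E h D x y = ci h D x - ci h D y := by
  unfold E ci
  by_cases hx : Comp (gens rels) h D x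
  · have hx1 := Comp.abs_le h0 hx
    have hx2 : ¬ D < h x := not_lt.mpr (abs_le.mp hx1).2
    by_cases hy : Comp (gens rels) h D y
    · have hy2 : ¬ D < h y := not_lt.mpr (abs_le.mp (Comp.abs_le h0 hy)).2
      simp [hx, hy, hx2, hy2]
    · have hy2 : D < h y := by
        by_contra hcon
        exact hy (hx.step hxy hx1 (abs_le.mpr ⟨h2, not_lt.mp hcon⟩))
      simp [hx, hy, hy2]
  · by_cases hy : Comp (gens rels) h D y
    · have hy1 := Comp.abs_le h0 hy
      have hx2 : D < h x := by
        by_contra hcon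
        exact hx (hy.step hxy.symm hy1 (abs_le.mpr ⟨h1, not_lt.mp hcon⟩))
      simp [hx, hy, hx2]
    · simp [hx, hy]

variable (h D)

/-- the action of a generator on `G × ℤ` -/
noncomputable def act (i : α) : Equiv.Perm (PresentedGroup rels × ℤ) where
  toFun p := (PresentedGroup.of i * p.1, p.2 + E h D p.1 (PresentedGroup.of i * p.1))
  invFun p := ((PresentedGroup.of i)⁻¹ * p.1, p.2 + E h D p.1 ((PresentedGroup.of i)⁻¹ * p.1))
  left_inv p := by
    refine Prod.ext ?_ ?_
    · exact inv_mul_cancel_left _ _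
    · change p.2 + E h D p.1 (PresentedGroup.of i * p.1) + E h D (PresentedGroup.of i * p.1)
        ((PresentedGroup.of i)⁻¹ * (PresentedGroup.of i * p.1)) = p.2
      rw [inv_mul_cancel_left, E_symm h D p.1]
      ring
  right_inv p := by
    refine Prod.ext ?_ ?_
    · exact mul_inv_cancel_left _ _
    · change p.2 + E h D p.1 ((PresentedGroup.of i)⁻¹ * p.1) + E h D
        ((PresentedGroup.of i)⁻¹ * p.1)
        (PresentedGroup.of i * ((PresentedGroup.of i)⁻¹ * p.1)) = p.2
      rw [mul_inv_cancel_left, E_symm h D p.1]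
      ring

/-- the action of words -/
noncomputable def rho : FreeGroup α →* Equiv.Perm (PresentedGroup rels × ℤ) :=
  FreeGroup.lift (act h D)

/-- the letter -/
def let1 (rels : Set (FreeGroup α)) (x : α × Bool) : PresentedGroup rels :=
  if x.2 then PresentedGroup.of x.1 else (PresentedGroup.of x.1)⁻¹

theorem mk_cons (x : α × Bool) (w : List (α × Bool)) :
    PresentedGroup.mk rels (FreeGroup.mk (x :: w)) =
      let1 rels x * PresentedGroup.mk rels (FreeGroup.mk w) := by
  have : (FreeGroup.mk (x :: w) : FreeGroup α) = FreeGroup.mk [x] * FreeGroup.mk w := by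
    rw [FreeGroup.mul_mk, List.singleton_append]
  rw [this, map_mul]
  congr 1
  obtain ⟨i, b⟩ := x
  cases b
  · change PresentedGroup.mk rels (FreeGroup.mk [(i, false)]) = (PresentedGroup.of i)⁻¹
    have e : (FreeGroup.mk [(i, false)] : FreeGroup α) = (FreeGroup.of i)⁻¹ := rfl
    rw [e, map_inv]
    rfl
  · rfl

theorem step_let1 (x : α × Bool) (g : PresentedGroup rels) :
    Step (gens rels) g (let1 rels x * g) := by
  obtain ⟨i, b⟩ := x
  cases b
  · exact ⟨_, ⟨i, rfl⟩, Or.inr (by
      change g = PresentedGroup.of i * ((PresentedGroup.of i)⁻¹ * g)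
      rw [mul_inv_cancel_left])⟩
  · exact ⟨_, ⟨i, rfl⟩, Or.inl rfl⟩

theorem rho_letter (x : α × Bool) (g : PresentedGroup rels) (n : ℤ) :
    rho h D (FreeGroup.mk [x]) (g, n) = (let1 rels x * g, n + E h D g (let1 rels x * g)) := by
  obtain ⟨i, b⟩ := x
  cases b
  · have e : (FreeGroup.mk [(i, false)] : FreeGroup α) = (FreeGroup.of i)⁻¹ := rfl
    rw [e, map_inv, rho, FreeGroup.lift_apply_of]
    rfl
  · have e : (FreeGroup.mk [(i, true)] : FreeGroup α) = FreeGroup.of i := rfl
    rw [e, rho, FreeGroup.lift_apply_of]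
    rfl

theorem rho_cons (x : α × Bool) (w : List (α × Bool)) (p : PresentedGroup rels × ℤ) :
    rho h D (FreeGroup.mk (x :: w)) p = rho h D (FreeGroup.mk [x]) (rho h D (FreeGroup.mk w) p) := by
  have : (FreeGroup.mk (x :: w) : FreeGroup α) = FreeGroup.mk [x] * FreeGroup.mk w := by
    rw [FreeGroup.mul_mk, List.singleton_append]
  rw [this, map_mul, Equiv.Perm.mul_apply]

variable {h D} {b : ℤ}

theorem height_letter (hb : ∀ (i : α) (g : PresentedGroup rels),
    |h (PresentedGroup.of i * g) - h g| ≤ b) (x : α × Bool) (g : PresentedGroup rels) :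
    |h (let1 rels x * g) - h g| ≤ b := by
  obtain ⟨i, β⟩ := x
  cases β
  · have := hb i ((PresentedGroup.of i)⁻¹ * g)
    rw [mul_inv_cancel_left, abs_sub_comm] at this
    exact this
  · exact hb i g

theorem height_word (hb : ∀ (i : α) (g : PresentedGroup rels),
    |h (PresentedGroup.of i * g) - h g| ≤ b) (w : List (α × Bool)) (g : PresentedGroup rels) :
    |h (PresentedGroup.mk rels (FreeGroup.mk w) * g) - h g| ≤ b * w.length := by
  induction w with
  | nil =>
    have : PresentedGroup.mk rels (FreeGroup.mk ([] : List (α × Bool))) = 1 := by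
      rw [← FreeGroup.one_eq_mk, map_one]
    rw [this, one_mul]
    simp
  | cons x w ih =>
    rw [mk_cons, mul_assoc, List.length_cons]
    have h1 := height_letter hb x (PresentedGroup.mk rels (FreeGroup.mk w) * g)
    have h2 := abs_sub_le (h (let1 rels x * (PresentedGroup.mk rels (FreeGroup.mk w) * g)))
      (h (PresentedGroup.mk rels (FreeGroup.mk w) * g)) (h g)
    push_cast
    linarith

theorem b_nonneg (hb : ∀ (i : α) (g : PresentedGroup rels),
    |h (PresentedGroup.of i * g) - h g| ≤ b) (x : α × Bool) : 0 ≤ b :=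
  (abs_nonneg _).trans (hb x.1 1)

theorem rho_high (hb : ∀ (i : α) (g : PresentedGroup rels),
    |h (PresentedGroup.of i * g) - h g| ≤ b) (h0 : |h 1| ≤ D) (w : List (α × Bool))
    (g : PresentedGroup rels) (n : ℤ) (hw : b * w.length ≤ D + h g) :
    rho h D (FreeGroup.mk w) (g, n) = (PresentedGroup.mk rels (FreeGroup.mk w) * g,
      n + (ci h D g - ci h D (PresentedGroup.mk rels (FreeGroup.mk w) * g))) := by
  induction w with
  | nil =>
    have : PresentedGroup.mk rels (FreeGroup.mk ([] : List (α × Bool))) = 1 := by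
      rw [← FreeGroup.one_eq_mk, map_one]
    rw [this, ← FreeGroup.one_eq_mk, map_one, one_mul]
    simp
  | cons x w ih =>
    have hb0 := b_nonneg hb x
    rw [List.length_cons] at hw
    push_cast at hw
    have h1 := height_word hb w g
    have h2 := height_letter hb x (PresentedGroup.mk rels (FreeGroup.mk w) * g)
    rw [abs_le] at h1 h2
    rw [rho_cons, ih (by nlinarith), rho_letter, mk_cons, mul_assoc]
    rw [E_high h0 (step_let1 x _) (by linarith [h1.1]) (by linarith [h1.1, h2.1])]
    refine Prod.ext rfl ?_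
    change n + _ + _ = n + _
    ring

theorem rho_low (hb : ∀ (i : α) (g : PresentedGroup rels),
    |h (PresentedGroup.of i * g) - h g| ≤ b) (w : List (α × Bool))
    (g : PresentedGroup rels) (n : ℤ) (hw : h g + b * w.length ≤ D) :
    rho h D (FreeGroup.mk w) (g, n) = (PresentedGroup.mk rels (FreeGroup.mk w) * g, n) := by
  induction w with
  | nil =>
    have : PresentedGroup.mk rels (FreeGroup.mk ([] : List (α × Bool))) = 1 := by
      rw [← FreeGroup.one_eq_mk, map_one]
    rw [this, ← FreeGroup.one_eq_mk, map_one, one_mul]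
    rfl
  | cons x w ih =>
    have hb0 := b_nonneg hb x
    rw [List.length_cons] at hw
    push_cast at hw
    have h1 := height_word hb w g
    have h2 := height_letter hb x (PresentedGroup.mk rels (FreeGroup.mk w) * g)
    rw [abs_le] at h1 h2
    rw [rho_cons, ih (by nlinarith), rho_letter, mk_cons, mul_assoc]
    rw [E_low _ _ (by linarith [h1.2]) (by linarith [h1.2, h2.2]), add_zero]

/-- the relators act trivially -/
theorem rho_rel [DecidableEq α] (hb : ∀ (i : α) (g : PresentedGroup rels),
    |h (PresentedGroup.of i * g) - h g| ≤ b) (h0 : |h 1| ≤ D)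
    (hL : ∀ r ∈ rels, b * (r.toWord.length : ℤ) ≤ D) (r : FreeGroup α) (hr : r ∈ rels) :
    rho h D r = 1 := by
  ext1 ⟨g, n⟩
  have h1 := hL r hr
  have e : PresentedGroup.mk rels (FreeGroup.mk r.toWord) = 1 := by
    rw [FreeGroup.mk_toWord]
    exact PresentedGroup.one_of_mem hr
  conv_lhs => rw [← FreeGroup.mk_toWord (x := r)]
  rw [Equiv.Perm.one_apply]
  rcases le_total 0 (h g) with h2 | h2
  · rw [rho_high hb h0 _ g n (by linarith), e, one_mul, sub_self, add_zero]
  · rw [rho_low hb _ g n (by linarith), e, one_mul]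

end Count

/-! ### The almost invariant set -/

section Main

variable {α : Type} {rels : Set (FreeGroup α)} {h : PresentedGroup rels → ℤ} {D b : ℤ}
  (R : PresentedGroup rels →* Equiv.Perm (PresentedGroup rels × ℤ))
  (hR : ∀ i, R (PresentedGroup.of i) = act h D i)

include hR in
theorem R_mk (w : FreeGroup α) : R (PresentedGroup.mk rels w) = rho h D w := by
  have : R.comp (PresentedGroup.mk rels) = rho h D := by
    ext1 i
    rw [MonoidHom.comp_apply, rho, FreeGroup.lift_apply_of]
    exact hR i
  exact DFunLike.congr_fun this w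

include hR in
theorem R_form (x : PresentedGroup rels) :
    ∃ c : PresentedGroup rels → ℤ, ∀ g n, R x (g, n) = (x * g, n + c g) := by
  obtain ⟨w, rfl⟩ := PresentedGroup.mk_surjective rels x
  obtain ⟨w, rfl⟩ : ∃ v : List (α × Bool), w = FreeGroup.mk v := by
    classical exact ⟨w.toWord, FreeGroup.mk_toWord.symm⟩
  rw [R_mk R hR]
  induction w with
  | nil =>
    refine ⟨fun _ => 0, fun g n => ?_⟩
    rw [← FreeGroup.one_eq_mk, map_one, map_one, one_mul, add_zero]
    rfl
  | cons x w ih =>
    obtain ⟨c, hc⟩ := ih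
    refine ⟨fun g => c g + E h D (PresentedGroup.mk rels (FreeGroup.mk w) * g)
      (let1 rels x * (PresentedGroup.mk rels (FreeGroup.mk w) * g)), fun g n => ?_⟩
    rw [rho_cons, hc, rho_letter, mk_cons, mul_assoc]
    refine Prod.ext rfl ?_
    change n + _ + _ = n + (_ + _)
    ring

/-- the counting function -/
def F (g : PresentedGroup rels) : ℤ := (R g (1, 0)).2

include hR in
theorem R_one (g : PresentedGroup rels) : R g (1, 0) = (g, F R g) := by
  obtain ⟨c, hc⟩ := R_form R hR g
  refine Prod.ext ?_ rfl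
  rw [hc]
  exact mul_one g

include hR in
theorem F_of_mul (i : α) (g : PresentedGroup rels) :
    F R (PresentedGroup.of i * g) = F R g + E h D g (PresentedGroup.of i * g) := by
  unfold F
  rw [map_mul, Equiv.Perm.mul_apply, R_one R hR, hR]
  rfl

include hR in
theorem F_step {x y : PresentedGroup rels} (hxy : Step (gens rels) x y) :
    F R y = F R x + E h D x y := by
  obtain ⟨_, ⟨i, rfl⟩, rfl | rfl⟩ := hxy
  · exact F_of_mul R hR i x
  · have := F_of_mul R hR i y
    rw [this, E_symm h D y]
    ring

theorem F_one : F R 1 = 0 := by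
  unfold F
  rw [map_one]
  rfl

include hR in
theorem F_comp {x : PresentedGroup rels} (hx : Comp (gens rels) h D x) : F R x = 0 := by
  unfold Comp Conn at hx
  induction hx with
  | refl => exact F_one R
  | tail _ h1 ih =>
    rw [F_step R hR h1.1, ih, E_low _ _ (abs_le.mp h1.2.1).2 (abs_le.mp h1.2.2).2, add_zero]

include hR in
/-- The counting function is invariant under the stabiliser. -/
theorem F_inv {m : PresentedGroup rels} (hm : ∀ g, h (g * m) = h g)
    (hm' : ∀ g, Comp (gens rels) h D (g * m) ↔ Comp (gens rels) h D g)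
    (g : PresentedGroup rels) : F R (g * m) = F R g := by
  have hE : ∀ x y, E h D (x * m) (y * m) = E h D x y := by
    intro x y
    have e1 : (Comp (gens rels) h D (x * m) ∧ D < h (y * m)) ↔
        (Comp (gens rels) h D x ∧ D < h y) := by rw [hm' x, hm y]
    have e2 : (Comp (gens rels) h D (y * m) ∧ D < h (x * m)) ↔
        (Comp (gens rels) h D y ∧ D < h x) := by rw [hm' y, hm x]
    classical
    unfold E
    congr 1
    · exact if_congr e1 rfl rfl
    · exact if_congr e2 rfl rfl
  have hF : F R m = 0 := by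
    apply F_comp R hR
    have := (hm' 1).mpr Relation.ReflTransGen.refl
    rwa [one_mul] at this
  obtain ⟨w, rfl⟩ := PresentedGroup.mk_surjective rels g
  obtain ⟨w, rfl⟩ : ∃ v : List (α × Bool), w = FreeGroup.mk v := by
    classical exact ⟨w.toWord, FreeGroup.mk_toWord.symm⟩
  induction w with
  | nil =>
    rw [← FreeGroup.one_eq_mk, map_one, one_mul, hF, F_one R]
  | cons x w ih =>
    rw [mk_cons, mul_assoc, F_step R hR (step_let1 x (_ * m)), ih,
      F_step R hR (step_let1 x (PresentedGroup.mk rels (FreeGroup.mk w))), ← mul_assoc, hE]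

include hR in
theorem F_high (hb : ∀ (i : α) (g : PresentedGroup rels),
    |h (PresentedGroup.of i * g) - h g| ≤ b) (h0 : |h 1| ≤ D) (w : List (α × Bool))
    (g : PresentedGroup rels) (hw : b * w.length ≤ D + h g) :
    F R (PresentedGroup.mk rels (FreeGroup.mk w) * g) = F R g +
      (ci h D g - ci h D (PresentedGroup.mk rels (FreeGroup.mk w) * g)) := by
  have : R (PresentedGroup.mk rels (FreeGroup.mk w) * g) (1, 0) =
      rho h D (FreeGroup.mk w) (g, F R g) := by
    rw [map_mul, Equiv.Perm.mul_apply, R_one R hR, R_mk R hR]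
  unfold F at *
  rw [this, rho_high hb h0 w g _ hw]

include hR in
theorem F_low (hb : ∀ (i : α) (g : PresentedGroup rels),
    |h (PresentedGroup.of i * g) - h g| ≤ b) (w : List (α × Bool))
    (g : PresentedGroup rels) (hw : h g + b * w.length ≤ D) :
    F R (PresentedGroup.mk rels (FreeGroup.mk w) * g) = F R g := by
  have : R (PresentedGroup.mk rels (FreeGroup.mk w) * g) (1, 0) =
      rho h D (FreeGroup.mk w) (g, F R g) := by
    rw [map_mul, Equiv.Perm.mul_apply, R_one R hR, R_mk R hR]
  unfold F at *
  rw [this, rho_low hb w g _ hw]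

end Main

/-- **Lemma W.** A finitely presented group with a subgroup of finite index that has a nontrivial
homomorphism to `ℤ` has a finitely generated subgroup with at least two relative ends. -/
theorem two_le {α : Type} [Finite α] {rels : Set (FreeGroup α)} (hfin : rels.Finite)
    (M : Subgroup (PresentedGroup rels)) [M.FiniteIndex] (χ : M →* Multiplicative ℤ)
    (hχ : ∃ m, χ m ≠ 1) :
    ∃ H : Subgroup (PresentedGroup rels), H.FG ∧ ∀ S : Set (PresentedGroup rels), S.Finite →
      Subgroup.closure S = ⊤ → 2 ≤ relEnds S H := by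
  classical
  -- an element of positive height
  obtain ⟨m₀, hm₀⟩ : ∃ m : M, 0 < Multiplicative.toAdd (χ m) := by
    obtain ⟨m, hm⟩ := hχ
    have h1 : Multiplicative.toAdd (χ m) ≠ 0 := fun h => hm (by
      rw [← ofAdd_toAdd (χ m), h]
      rfl)
    rcases lt_or_gt_of_ne h1 with h2 | h2
    · exact ⟨m⁻¹, by rw [map_inv, toAdd_inv]; omega⟩
    · exact ⟨m, h2⟩
  obtain ⟨h, hh, hbd⟩ := exists_height (M := M) χ
  choose bs hbs using hbd
  have := Fintype.ofFinite α
  let b : ℤ := ∑ i : α, (bs (PresentedGroup.of i) : ℤ)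
  have hb : ∀ (i : α) (g : PresentedGroup rels), |h (PresentedGroup.of i * g) - h g| ≤ b := by
    intro i g
    refine (hbs (PresentedGroup.of i) g).trans ?_
    exact Finset.single_le_sum (f := fun i : α => (bs (PresentedGroup.of i) : ℤ))
      (fun _ _ => Int.natCast_nonneg _) (Finset.mem_univ i)
  have hb0 : 0 ≤ b := Finset.sum_nonneg fun _ _ => Int.natCast_nonneg _
  obtain ⟨w, hw⟩ : ∃ w : List (α × Bool), PresentedGroup.mk rels (FreeGroup.mk w) = m₀ := by
    obtain ⟨v, hv⟩ := PresentedGroup.mk_surjective rels (m₀ : PresentedGroup rels)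
    exact ⟨v.toWord, by rw [FreeGroup.mk_toWord, hv]⟩
  obtain ⟨L, hL⟩ : ∃ L : ℕ, ∀ r ∈ rels, r.toWord.length ≤ L := by
    obtain ⟨L, hL⟩ := (hfin.image fun r : FreeGroup α => r.toWord.length).bddAbove
    exact ⟨L, fun r hr => hL ⟨r, hr, rfl⟩⟩
  let D : ℤ := b * L + b * w.length + |h 1|
  have hD1 : |h 1| ≤ D := by
    have h1 : 0 ≤ b * (L : ℤ) := mul_nonneg hb0 (Int.natCast_nonneg _)
    have h2 : 0 ≤ b * (w.length : ℤ) := mul_nonneg hb0 (Int.natCast_nonneg _)
    change |h 1| ≤ b * L + b * w.length + |h 1|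
    linarith
  have hD2 : ∀ r ∈ rels, b * (r.toWord.length : ℤ) ≤ D := by
    intro r hr
    have h1 : b * (r.toWord.length : ℤ) ≤ b * (L : ℤ) :=
      mul_le_mul_of_nonneg_left (by exact_mod_cast hL r hr) hb0
    have h2 : 0 ≤ b * (w.length : ℤ) := mul_nonneg hb0 (Int.natCast_nonneg _)
    have h3 : 0 ≤ |h 1| := abs_nonneg _
    change _ ≤ b * L + b * w.length + |h 1|
    linarith
  have hD3 : b * (w.length : ℤ) + |h 1| ≤ D := by
    have h1 : 0 ≤ b * (L : ℤ) := mul_nonneg hb0 (Int.natCast_nonneg _)
    change _ ≤ b * L + b * w.length + |h 1|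
    linarith
  let R : PresentedGroup rels →* Equiv.Perm (PresentedGroup rels × ℤ) :=
    PresentedGroup.toGroup (f := act h D) (fun r hr => rho_rel hb hD1 hD2 r hr)
  have hR : ∀ i, R (PresentedGroup.of i) = act h D i := fun i => PresentedGroup.toGroup.of _
  let H : Subgroup (PresentedGroup rels) := stab χ hh (gens rels) D
  have hgfin : (gens rels).Finite := Set.finite_range _
  refine ⟨H, stab_fg χ hh (gens rels) D hgfin hD1, fun S hS hS' => ?_⟩
  have hinv : ∀ m ∈ H, ∀ g, F R (g * m) = F R g := fun m hm g =>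
    F_inv R hR (height_stab χ hh _ _ hm) (comp_stab χ hh _ _ hm) g
  -- the set
  let U : Set (PresentedGroup rels ⧸ H) := QuotientGroup.mk '' {g | 1 ≤ F R g}
  have hU : ∀ g : PresentedGroup rels, (QuotientGroup.mk g : PresentedGroup rels ⧸ H) ∈ U ↔
      1 ≤ F R g := by
    intro g
    constructor
    · rintro ⟨g', hg', he⟩
      have h1 : g'⁻¹ * g ∈ H := QuotientGroup.eq.mp he
      have h2 := hinv _ h1 g'
      rw [mul_inv_cancel_left] at h2
      rw [h2]
      exact hg'
    · intro hg
      exact ⟨g, hg, rfl⟩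
  have hCfin := comp_finite χ hh (gens rels) D hD1
  set CC : Set (PresentedGroup rels ⧸ H) :=
    (QuotientGroup.mk : PresentedGroup rels → PresentedGroup rels ⧸ H) ''
      {x | Comp (gens rels) h D x} with hCC
  have hedge : ∀ x y : PresentedGroup rels, E h D x y ≠ 0 →
      (QuotientGroup.mk x : PresentedGroup rels ⧸ H) ∈ CC ∨
        (QuotientGroup.mk y : PresentedGroup rels ⧸ H) ∈ CC := by
    intro x y hxy
    by_contra hcon
    push Not at hcon
    apply hxy
    unfold E
    rw [if_neg (fun H' => hcon.1 ⟨x, H'.1, rfl⟩), if_neg (fun H' => hcon.2 ⟨y, H'.1, rfl⟩),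
      sub_zero]
  have hAI : AInv (PresentedGroup rels) U := by
    apply E2.AInv.of_gen (S := gens rels) (PresentedGroup.closure_range_of rels)
    rintro _ ⟨i, rfl⟩
    have hfin' : (CC ∪ (PresentedGroup.of i : PresentedGroup rels) • CC).Finite :=
      hCfin.union hCfin.smul_set
    refine hfin'.subset ?_
    intro q hq
    induction q using QuotientGroup.induction_on with
    | H g =>
    have e1 : (QuotientGroup.mk g : PresentedGroup rels ⧸ H) ∈
        (PresentedGroup.of i : PresentedGroup rels) • U ↔
        1 ≤ F R ((PresentedGroup.of i)⁻¹ * g) := by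
      rw [Set.mem_smul_set_iff_inv_smul_mem]
      exact hU _
    have e2 := hU g
    have h3 : F R g = F R ((PresentedGroup.of i)⁻¹ * g) +
        E h D ((PresentedGroup.of i)⁻¹ * g) g := by
      have := F_of_mul R hR i ((PresentedGroup.of i)⁻¹ * g)
      rwa [mul_inv_cancel_left] at this
    have h4 : E h D ((PresentedGroup.of i)⁻¹ * g) g ≠ 0 := by
      intro h5
      rw [h5, add_zero] at h3
      rw [Set.mem_symmDiff, e1, e2, h3] at hq
      rcases hq with ⟨h6, h7⟩ | ⟨h6, h7⟩
      · exact h7 h6
      · exact h7 h6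
    rcases hedge _ _ h4 with h5 | h5
    · right
      rw [Set.mem_smul_set_iff_inv_smul_mem]
      exact h5
    · left
      exact h5
  -- heights of the powers of `m₀`
  have hpow : ∀ k : ℕ, h ((m₀ : PresentedGroup rels) ^ k) =
      h 1 + k * Multiplicative.toAdd (χ m₀) := by
    intro k
    have := hh 1 (m₀ ^ k)
    rw [one_mul, map_pow, toAdd_pow, nsmul_eq_mul] at this
    exact_mod_cast this
  have hpow' : ∀ k : ℕ, h (((m₀ : PresentedGroup rels) ^ k)⁻¹) =
      h 1 - k * Multiplicative.toAdd (χ m₀) := by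
    intro k
    have := hh 1 (m₀ ^ k)⁻¹
    rw [one_mul, map_inv, map_pow, toAdd_inv, toAdd_pow, nsmul_eq_mul] at this
    rw [sub_eq_add_neg]
    exact_mod_cast this
  have habs1 := neg_abs_le (h 1)
  have habs2 := le_abs_self (h 1)
  have hFpow : ∀ k : ℕ, F R ((m₀ : PresentedGroup rels) ^ k) =
      1 - ci h D ((m₀ : PresentedGroup rels) ^ k) := by
    intro k
    induction k with
    | zero =>
      rw [pow_zero, F_one R]
      have : ci h D (1 : PresentedGroup rels) = 1 := if_pos Relation.ReflTransGen.refl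
      rw [this, sub_self]
    | succ k ih =>
      have h1 : (0 : ℤ) ≤ k * Multiplicative.toAdd (χ m₀) :=
        mul_nonneg (Int.natCast_nonneg _) hm₀.le
      have h2 := F_high R hR hb hD1 w ((m₀ : PresentedGroup rels) ^ k) (by
        rw [hpow]
        linarith)
      rw [hw, ← pow_succ'] at h2
      rw [h2, ih]
      ring
  have hFpow' : ∀ k : ℕ, F R (((m₀ : PresentedGroup rels) ^ k)⁻¹) = 0 := by
    intro k
    induction k with
    | zero => rw [pow_zero, inv_one, F_one R]
    | succ k ih =>
      have h1 : (0 : ℤ) ≤ ((k + 1 : ℕ) : ℤ) * Multiplicative.toAdd (χ m₀) :=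
        mul_nonneg (Int.natCast_nonneg _) hm₀.le
      have h2 := F_low R hR hb w (((m₀ : PresentedGroup rels) ^ (k + 1))⁻¹) (by
        rw [hpow']
        linarith)
      rw [hw] at h2
      rw [← h2, ← ih]
      congr 1
      rw [pow_succ]
      group
  have hneq : ∀ x y : PresentedGroup rels,
      (QuotientGroup.mk x : PresentedGroup rels ⧸ H) = QuotientGroup.mk y → h x = h y := by
    intro x y hxy
    have h1 : x⁻¹ * y ∈ H := QuotientGroup.eq.mp hxy
    have h2 := height_stab χ hh _ _ h1 x
    rw [mul_inv_cancel_left] at h2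
    exact h2.symm
  obtain ⟨k₀, hk₀⟩ : ∃ k₀ : ℕ, D - h 1 < k₀ := ⟨(D - h 1).toNat + 1, by omega⟩
  have hUinf : U.Infinite := by
    refine Set.infinite_of_injective_forall_mem (f := fun k : ℕ =>
      (QuotientGroup.mk ((m₀ : PresentedGroup rels) ^ (k₀ + k)) : PresentedGroup rels ⧸ H)) ?_ ?_
    · intro k l hkl
      have h1 := hneq _ _ hkl
      rw [hpow, hpow] at h1
      have h2 : ((k₀ + k : ℕ) : ℤ) * Multiplicative.toAdd (χ m₀) =
          ((k₀ + l : ℕ) : ℤ) * Multiplicative.toAdd (χ m₀) := by linarith
      have h3 := mul_right_cancel₀ hm₀.ne' h2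
      omega
    · intro k
      rw [hU, hFpow]
      have h1 : D < h ((m₀ : PresentedGroup rels) ^ (k₀ + k)) := by
        rw [hpow]
        push_cast
        have h2 : ((k₀ : ℤ) + k) * 1 ≤ ((k₀ : ℤ) + k) * Multiplicative.toAdd (χ m₀) :=
          mul_le_mul_of_nonneg_left (by omega) (by positivity)
        have h3 : (0 : ℤ) ≤ k := Int.natCast_nonneg _
        linarith
      have h2 : ci h D ((m₀ : PresentedGroup rels) ^ (k₀ + k)) = 0 :=
        if_neg fun H' => absurd (abs_le.mp (Comp.abs_le hD1 H')).2 (not_le.mpr h1)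
      rw [h2]
      norm_num
  have hUinf' : Uᶜ.Infinite := by
    refine Set.infinite_of_injective_forall_mem (f := fun k : ℕ =>
      (QuotientGroup.mk (((m₀ : PresentedGroup rels) ^ k)⁻¹) : PresentedGroup rels ⧸ H)) ?_ ?_
    · intro k l hkl
      have h1 := hneq _ _ hkl
      rw [hpow', hpow'] at h1
      have h2 : (k : ℤ) * Multiplicative.toAdd (χ m₀) =
          (l : ℤ) * Multiplicative.toAdd (χ m₀) := by linarith
      exact_mod_cast mul_right_cancel₀ hm₀.ne' h2
    · intro k
      rw [Set.mem_compl_iff, hU, hFpow']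
      norm_num
  exact two_le_relEnds hS hS' hAI hUinf hUinf'

end Pool.Agent.H.MP_ee9c6f_al.Wall
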